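import Pool.Agent.H703R2.AB.Alg
import Pool.Agent.H746R2.AA.Avg
import Pool.Agent.H550R3.AA.BitsNoise

/-!
# The bit-fixing form of the Aaronson-Ambainis problem for the noise stable variance

A quantum query algorithm makes `T` queries.  Its classical record (the list of all measurement
outcomes and coin tosses so far, most recent outcome first) is unbounded; the quantum state kept
from one query to the next has an arbitrary dimension `M`.  After the record `h` it applies an
arbitrary isometry `V h` into an arbitrarily large workspace with basis `B`, then the phase query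
(the basis state `b` is multiplied by `(-1)^{x_i}` if `pos h b = some i`, and by `1` if
`pos h b = none`), and then an arbitrary instrument with Kraus operators `K h w`, which map back to
dimension `M` and produce the classical outcome `w`.  The (subnormalised) state after the record `h`
is `A h x`, its squared norm is the probability of the record `h` on the oracle `x`, and `p x` is the
acceptance probability on the oracle `x`, when a transcript `a` is accepted with probability `g a`.

Let `σ = ∑ (1 - δ) ^ |S| * phat(S) ^ 2` (over the nonempty sets `S`) be the noise stable variance of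
`p`.  Fixing at most `(4 T) ^ (8010 * log (1 / δ)) / σ ^ 4` bits of the oracle moves the mean
acceptance probability by at least `sqrt (σ / 4)`.
-/

set_option autoImplicit false

namespace Pool.Agent.Results.MP_58d537_lc.NoiseStable

open Matrix Pool.Agent.H746R2.AA Pool.Agent.H703R2.AA Pool.Agent.H703R2.AB

theorem result {B W : Type*} [Fintype B] [DecidableEq B] [Fintype W] (N T M : ℕ)
    -- the algorithm
    (pos : List W → B → Option (Fin N))
    (V : List W → Matrix B (Fin M) ℂ) (hV : ∀ h, (V h)ᴴ * V h = 1)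
    (K : List W → W → Matrix (Fin M) B ℂ) (hK : ∀ h, ∑ w, (K h w)ᴴ * K h w = 1)
    (v : Fin M → ℂ) (hv : ∑ i, ‖v i‖ ^ 2 = 1)
    -- its state after a record
    (A : List W → (Fin N → Bool) → Fin M → ℂ)
    (hA0 : ∀ x, A [] x = v)
    (hA : ∀ h w x, A (w :: h) x = K h w *ᵥ (fun b => (Option.elim (pos h b) 1
      (fun i => if x i then -1 else 1)) * (V h *ᵥ A h x) b))
    -- its acceptance probability
    (g : (Fin T → W) → ℝ) (hg0 : ∀ a, 0 ≤ g a) (hg1 : ∀ a, g a ≤ 1)
    (p : (Fin N → Bool) → ℝ)
    (hp : ∀ x, p x = ∑ a : Fin T → W, g a * ∑ i, ‖A (List.ofFn a) x i‖ ^ 2)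
    -- the mean
    (E : ℝ) (hE : E = (∑ x, p x) / 2 ^ N)
    -- the noise stable variance at the noise rate `δ`
    (δ : ℝ) (hδ0 : 0 < δ) (hδ1 : δ ≤ 1 / 2) (σ : ℝ)
    (hσ : σ = ∑ S ∈ Finset.univ.erase (∅ : Finset (Fin N)), (1 - δ) ^ S.card *
      ((∑ x, p x * ∏ i ∈ S, (if x i then (-1 : ℝ) else 1)) / 2 ^ N) ^ 2)
    (hpos : 0 < σ) :
    ∃ (S : Finset (Fin N)) (a : Fin N → Bool),
      (S.card : ℝ) ≤ Real.exp (8010 * (Real.log (4 * T) * Real.log (1 / δ))) / σ ^ 4 ∧
      Real.sqrt (σ / 4) ≤
        |(∑ x ∈ Finset.univ.filter (fun x : Fin N → Bool => ∀ i ∈ S, x i = a i), p x)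
            / ((Finset.univ.filter (fun x : Fin N → Bool => ∀ i ∈ S, x i = a i)).card : ℝ)
          - E| := by
  classical
  set P := mkPr pos V K hV hK v hv with hP
  have hAP : ∀ h y, P.A h y = rv (A h (bx y)) := by
    refine mkPr_A pos V K hV hK v hv (fun h y => A h (bx y)) (fun y => hA0 _) ?_
    intro h w y
    rw [hA]
    congr 1
    funext b
    congr 1
    cases pos h b with
    | none => rfl
    | some i =>
      simp only [Option.elim_some, bx]
      rcases Int.units_eq_one_or (y i) with h1 | h1 <;> simp [h1]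
  obtain ⟨g', hg'0, hg'1, hg'2⟩ := gext T g hg0 hg1
  set f : (Fin N → ℤˣ) → ℝ := fun y => p (bx y) with hf
  have hfP : f = P.out T g' := by
    funext y
    rw [hf]
    beta_reduce
    rw [hp]
    unfold Pr.out
    rw [S_eq_ofFn]
    refine Finset.sum_congr rfl fun a _ => ?_
    rw [hg'2, hAP, nsq_rv]
  have hEx : E = Ex f := by
    rw [hE]; exact (Ex_bx p).symm
  have hWW : σ = Pool.Agent.H703R3.QS.Cr (1 - δ) f f := by
    rw [hσ, Pool.Agent.H703R3.QS.Cr_fourier]
    refine Finset.sum_congr rfl fun S _ => ?_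
    rw [← sq]
    congr 2
    rw [fc_eq_Ex, ← Ex_bx]
    refine Ex_congr fun y => ?_
    rw [hf]
    beta_reduce
    congr 1
    refine Finset.prod_congr rfl fun i _ => ?_
    unfold Pool.Agent.H722R2.AA.sg bx
    rcases Int.units_eq_one_or (y i) with h1 | h1 <;> simp [h1]
  have hV1 : 0 < Cov f f := by
    have := Pool.Agent.H703R3.QS.Cr_le_Cov (by linarith : 0 ≤ 1 - δ) (by linarith) f
    rw [← hWW] at this
    linarith
  have hT : 1 ≤ T := T_pos P T g' (by rw [← hfP]; exact hV1)
  obtain ⟨S, a, hS, ha⟩ := Pool.Agent.H550R3.AA.bits_noise P T hT δ hδ0 hδ1 g' hg'0 hg'1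
    (by rw [← hfP, ← hWW]; exact hpos)
  refine ⟨S, bx a, ?_, ?_⟩
  · rw [← hfP, ← hWW] at hS
    exact hS
  · rw [← hfP, ← hWW, ← hEx] at ha
    have h1 : Ex (fun y => f (S.piecewise a y))
        = (∑ x ∈ Finset.univ.filter (fun x : Fin N → Bool => ∀ i ∈ S, x i = bx a i), p x)
          / ((Finset.univ.filter (fun x : Fin N → Bool => ∀ i ∈ S, x i = bx a i)).card : ℝ) := by
      rw [← subcube_avg S (bx a) p, ← Ex_bx]
      refine Ex_congr fun y => ?_
      rw [hf]
      change p (bx (S.piecewise a y)) = _
      rw [bx_piecewise]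
    rw [h1] at ha
    rw [← Real.sqrt_sq_eq_abs]
    exact Real.sqrt_le_sqrt ha

end Pool.Agent.Results.MP_58d537_lc.NoiseStable
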