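import Pool.Agent.H889R3.RQ.QSim

/-!
# Quasi-polynomial classical simulation of quantum query algorithms on most oracles

The simulation form of the problem, with quasi-polynomial instead of polynomial bounds: there is a
constant `C` such that for every quantum query algorithm making `T` queries to an oracle
`x ∈ {0,1}^N`, with acceptance probability `p x`, and all `0 < ε, δ ≤ 1` there is a deterministic
classical query algorithm `D` asking at most `(8 T / (ε² δ)) ^ (C log (4 T))` bits of the oracle,
whose output differs from `p x` by at most `ε` for all but at most a fraction `δ` of the oracles.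

A quantum query algorithm has a classical record (the list of all measurement outcomes and coin
tosses so far, most recent outcome first); the quantum state kept from one query to the next has an
arbitrary dimension `M`.  After the record `h` it applies an arbitrary isometry `V h` into an
arbitrarily large workspace with basis `B`, then the phase query (the basis state `b` is multiplied
by `(-1)^{x_i}` if `pos h b = some i`, and by `1` if `pos h b = none`), and then an arbitrary
instrument with Kraus operators `K h w`, which map back to dimension `M` and produce the classical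
outcome `w`.  The (subnormalised) state after the record `h` is `A h x`, its squared norm is the
probability of the record `h` on the oracle `x`, and a transcript `a` is accepted with probability
`g a`.
-/

set_option autoImplicit false

namespace Pool.Agent.Results.MP_58d537_lc.Simulation

open Matrix Pool.Agent.H889R3.RQ

universe u v

theorem result : ∃ C : ℝ, 0 < C ∧
    ∀ (B : Type u) (W : Type v) [Fintype B] [DecidableEq B] [Fintype W] (N T M : ℕ) (_ : 1 ≤ T)
    -- the algorithm
    (pos : List W → B → Option (Fin N))
    (V : List W → Matrix B (Fin M) ℂ) (_ : ∀ h, (V h)ᴴ * V h = 1)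
    (K : List W → W → Matrix (Fin M) B ℂ) (_ : ∀ h, ∑ w, (K h w)ᴴ * K h w = 1)
    (s : Fin M → ℂ) (_ : ∑ i, ‖s i‖ ^ 2 = 1)
    -- its state after a record
    (A : List W → (Fin N → Bool) → Fin M → ℂ)
    (_ : ∀ x, A [] x = s)
    (_ : ∀ h w x, A (w :: h) x = K h w *ᵥ (fun b => (Option.elim (pos h b) 1
      (fun i => if x i then -1 else 1)) * (V h *ᵥ A h x) b))
    -- its acceptance probability
    (g : (Fin T → W) → ℝ) (_ : ∀ a, 0 ≤ g a) (_ : ∀ a, g a ≤ 1)
    (p : (Fin N → Bool) → ℝ)
    (_ : ∀ x, p x = ∑ a : Fin T → W, g a * ∑ i, ‖A (List.ofFn a) x i‖ ^ 2)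
    -- the accuracy and the fraction of bad oracles
    (ε δ : ℝ), 0 < ε → ε ≤ 1 → 0 < δ → δ ≤ 1 →
    ∃ D : RTree (Fin N),
      (D.depth : ℝ) ≤ (8 * T / (ε ^ 2 * δ)) ^ (C * Real.log (4 * T)) ∧
      (({x : Fin N → Bool | ε < |p x - D.eval x|}.ncard : ℕ) : ℝ) ≤ δ * 2 ^ N := by
  obtain ⟨C, hC, h⟩ := a4R
  refine ⟨C, hC, ?_⟩
  intro B W _ _ _ N T M hT pos V hV K hK s hs A hA0 hA g hg0 hg1 p hp ε δ hε hε1 hδ hδ1
  obtain ⟨hd, hp0, hp1⟩ := degLe_alg N T M pos V hV K hK s hs A hA0 hA g hg0 hg1 p hp
  obtain ⟨D, hD1, hD2⟩ := h N (2 * T) p ε δ (by omega) hp0 hp1 hd hε hε1 hδ hδ1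
  refine ⟨D, ?_, ?_⟩
  · push_cast at hD1
    have e1 : 4 * (2 * (T : ℝ)) = 8 * T := by ring
    have e2 : 2 * (2 * (T : ℝ)) = 4 * T := by ring
    rw [e1, e2] at hD1
    exact hD1
  · unfold Pool.Agent.H572R2.EE at hD2
    rw [div_le_iff₀ (by positivity)] at hD2
    refine le_trans (le_of_eq ?_) hD2
    unfold badR
    rw [Finset.sum_boole]
    congr 1
    rw [Set.ncard_eq_toFinset_card']
    congr 1
    ext x
    simp

end Pool.Agent.Results.MP_58d537_lc.Simulation
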